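import Pool.Agent.Helper53.U.K1
import Pool.Agent.Helper73.U.K2

/-!
# MP_506470_co : module U-K3, Lemma K from its two induction steps
-/

namespace SetHom
namespace Un

variable {V : Type} {G : SimpleGraph V}

/-- A set with few elements has small cliques. -/
theorem CF.of_ncard {α : Type} [Finite α] {H : SimpleGraph α} {T : Set α} {s : ℕ}
    (h : T.ncard ≤ s) : CF H T s := by
  intro Q _ hQT
  rw [← Set.ncard_coe_finset]
  exact (Set.ncard_le_ncard (fun x hx => hQT x hx) (Set.toFinite T)).trans h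

/-- The nested case. -/
theorem k3_nested (hW : WG G) {s : ℕ} (hF : FreeIn G (s + 1)) : ∀ (n : ℕ) (α : Type) [Finite α]
    (H : SimpleGraph α) (U T : Set α) (a b : α), KC H U T a b s →
      (∀ z ∈ U, z ≠ b → H.Adj a z → H.Adj b z) →
      {z | z ∈ U ∧ z ≠ b ∧ ¬ H.Adj b z}.ncard = n → ∀ r, InW G r H U
  | 0, α, _, H, U, T, a, b, h, _, hc, r => by
    have he : {z | z ∈ U ∧ z ≠ b ∧ ¬ H.Adj b z} = ∅ :=
      (Set.ncard_eq_zero (Set.toFinite _)).1 hc
    have hdom : ∀ x ∈ U, x ≠ b → H.Adj b x := by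
      intro x hx hxb
      by_contra hcon
      have : x ∈ {z | z ∈ U ∧ z ≠ b ∧ ¬ H.Adj b z} := ⟨hx, hxb, hcon⟩
      rw [he] at this
      exact this
    refine InW.cone (h.sub h.hb) hdom ?_
    refine PS.inW (hF α H (T \ {b}) h.fb) ?_ (Set.mem_univ _)
    rintro x ⟨hx, hxb⟩ hxT y ⟨hy, hyb⟩ hyT
    exact h.ind x hx (fun e => hxT ⟨e, hxb⟩) y hy (fun e => hyT ⟨e, hyb⟩)
  | n + 1, α, _, H, U, T, a, b, h, hn, hc, r =>
    lemK1_step hW hF n (k3_nested hW hF n) h hn hc r

/-- The general case. -/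
theorem k3_general (hW : WG G) {s : ℕ} (hF : FreeIn G (s + 1)) : ∀ (n : ℕ) (α : Type) [Finite α]
    (H : SimpleGraph α) (U T : Set α) (a b : α), KC H U T a b s →
      {z | z ∈ U ∧ z ≠ b ∧ H.Adj a z ∧ ¬ H.Adj b z}.ncard = n → ∀ r, InW G r H U
  | 0, α, _, H, U, T, a, b, h, hc, r => by
    have he : {z | z ∈ U ∧ z ≠ b ∧ H.Adj a z ∧ ¬ H.Adj b z} = ∅ :=
      (Set.ncard_eq_zero (Set.toFinite _)).1 hc
    refine k3_nested hW hF _ α H U T a b h ?_ rfl r
    intro z hz hzb haz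
    by_contra hcon
    have : z ∈ {z | z ∈ U ∧ z ≠ b ∧ H.Adj a z ∧ ¬ H.Adj b z} := ⟨hz, hzb, haz, hcon⟩
    rw [he] at this
    exact this
  | n + 1, α, _, H, U, T, a, b, h, hc, r =>
    lemK2_step hW hF n (k3_general hW hF n) h hc r

/-- Finite types. -/
theorem k3_finite (hW : WG G) {s : ℕ} (hF : FreeIn G (s + 1)) {α : Type} [Finite α]
    {A : SimpleGraph α} {T : Set α} (hT : T.ncard ≤ s + 2)
    (hA : ∀ x ∈ T, ∀ y ∈ T, x ≠ y → A.Adj x y) : PS G Set.univ A T := by
  rcases Nat.lt_or_ge T.ncard (s + 2) with h1 | h1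
  · exact hF α A T (CF.of_ncard (by omega))
  · have h2 : T.ncard = s + 2 := le_antisymm hT h1
    obtain ⟨a, ha, b, hb, hab⟩ := Set.one_lt_ncard_iff_nontrivial.1
      (by omega : 1 < T.ncard)
    intro β _ R r _
    have hinj : Function.Injective (Sum.inl : α → α ⊕ β) := Sum.inl_injective
    have hc : (Sum.inl '' T : Set (α ⊕ β)).ncard = s + 2 := by
      rw [Set.ncard_image_of_injective _ hinj, h2]
    have hne : (Sum.inl a : α ⊕ β) ≠ Sum.inl b := fun e => hab (hinj e)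
    have ha' : (Sum.inl a : α ⊕ β) ∈ (Sum.inl '' T : Set (α ⊕ β)) := ⟨a, ha, rfl⟩
    have hb' : (Sum.inl b : α ⊕ β) ∈ (Sum.inl '' T : Set (α ⊕ β)) := ⟨b, hb, rfl⟩
    have hca : ((Sum.inl '' T : Set (α ⊕ β)) \ {Sum.inl a}).ncard + 1 = s + 2 := by
      rw [Set.ncard_sdiff_singleton_add_one ha' (Set.toFinite _), hc]
    have hcb : ((Sum.inl '' T : Set (α ⊕ β)) \ {Sum.inl b}).ncard + 1 = s + 2 := by
      rw [Set.ncard_sdiff_singleton_add_one hb' (Set.toFinite _), hc]
    have hcab : ((Sum.inl '' T : Set (α ⊕ β)) \ {Sum.inl a, Sum.inl b}).ncard ≤ s := by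
      have h3 : ((Sum.inl '' T : Set (α ⊕ β)) \ {Sum.inl a, Sum.inl b}) =
          ((Sum.inl '' T : Set (α ⊕ β)) \ {Sum.inl b}) \ {Sum.inl a} := by
        ext x
        simp only [Set.mem_sdiff, Set.mem_insert_iff, Set.mem_singleton_iff]
        tauto
      rw [h3]
      have h4 := Set.ncard_sdiff_singleton_add_one
        (s := (Sum.inl '' T : Set (α ⊕ β)) \ {Sum.inl b}) (a := Sum.inl a)
        ⟨ha', fun e => hne e⟩ (Set.toFinite _)
      omega
    refine k3_general hW hF _ (α ⊕ β) (AJ A R) (UJ β T) (Sum.inl '' T) (Sum.inl a) (Sum.inl b)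
      ⟨?_, ha', hb', hA a ha b hb hab, ?_, CF.of_ncard (by omega), CF.of_ncard (by omega),
        CF.of_ncard hcab⟩ rfl r
    · rintro x ⟨t, ht, rfl⟩
      simpa using ht
    · have key : ∀ x ∈ UJ β T, x ∉ (Sum.inl '' T : Set (α ⊕ β)) → ∃ j, x = Sum.inr j := by
        rintro (t | j) hx hxT
        · exact absurd ⟨t, by simpa using hx, rfl⟩ hxT
        · exact ⟨j, rfl⟩
      intro x hx hxT y hy hyT
      obtain ⟨i, rfl⟩ := key x hx hxT
      obtain ⟨j, rfl⟩ := key y hy hyT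
      exact AJ_rr i j

/-- module U-K3 (Lemma K from the two steps). -/
theorem lemK (hW : WG G) {s : ℕ} (hF : FreeIn G (s + 1)) :
    InCl (fun _ A T => PS G Set.univ A T) (s + 2) := by
  classical
  intro α A T hfin hT hA
  show PS G Set.univ A T
  have : Finite T := hfin
  rcases T.eq_empty_or_nonempty with rfl | ⟨t0, ht0⟩
  · have h0 : PS G Set.univ (⊥ : SimpleGraph Unit) (∅ : Set Unit) :=
      hF Unit ⊥ ∅ (CF.of_ncard (by simp))
    exact h0.comap (fun _ => ()) (fun x hx => absurd hx (Set.notMem_empty x))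
      (fun x hx => absurd hx (Set.notMem_empty x)) (fun x hx => absurd hx (Set.notMem_empty x))
  · have h1 : PS G Set.univ (A.comap (Subtype.val : T → α)) Set.univ := by
      refine k3_finite hW hF ?_ ?_
      · rw [Set.ncard_univ]
        exact hT
      · intro x _ y _ hxy
        exact hA x x.2 y y.2 (fun e => hxy (Subtype.ext e))
    have hg : ∀ x (hx : x ∈ T), (if h : x ∈ T then (⟨x, h⟩ : T) else ⟨t0, ht0⟩) = ⟨x, hx⟩ :=
      fun x hx => dif_pos hx
    refine h1.comap (fun x => if h : x ∈ T then (⟨x, h⟩ : T) else ⟨t0, ht0⟩)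
      (fun _ _ => Set.mem_univ _) ?_ ?_
    · intro x hx y hy e
      simp only [hg x hx, hg y hy, Subtype.mk.injEq] at e
      exact e
    · intro x hx y hy
      simp only [hg x hx, hg y hy, SimpleGraph.comap_adj]

end Un
end SetHom
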