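import Pool.Agent.Helper30.U.Defs2

/-!
# MP_506470_co : module U-A3, strong amalgamation classes without complements of `P_3`
-/

namespace SetHom
namespace Un

/-- If one complement of `P_3` is missing then no member of the class contains one. -/
theorem a3_no {P : ∀ α : Type, SimpleGraph α → Set α → Prop} (h : SAC P) (h3 : ¬ InCP3 P)
    {β : Type} {B : SimpleGraph β} {T : Set β} {y c d : β} (hy : y ∈ T) (hc : c ∈ T) (hd : d ∈ T)
    (hcd : B.Adj c d) (hyc : y ≠ c) (hyd : y ≠ d) (h1 : ¬ B.Adj y c) (h2 : ¬ B.Adj y d) :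
    ¬ P β B T := by
  classical
  intro hP
  apply h3
  intro α A x a b hab hxa hxb hnxa hnxb
  have gx : (if x = x then y else if x = a then c else d) = y := if_pos rfl
  have ga : (if a = x then y else if a = a then c else d) = c := by
    rw [if_neg hxa.symm, if_pos rfl]
  have gb : (if b = x then y else if b = a then c else d) = d := by
    rw [if_neg hxb.symm, if_neg hab.ne.symm]
  refine h.comap β α B T A {x, a, b} (fun z => if z = x then y else if z = a then c else d) hP
    ?_ ?_ ?_
  · intro z hz
    show (if z = x then y else if z = a then c else d) ∈ T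
    split_ifs
    · exact hy
    · exact hc
    · exact hd
  · rintro z hz w hw e
    simp only [Set.mem_insert_iff, Set.mem_singleton_iff] at hz hw
    simp only at e
    rcases hz with rfl | rfl | rfl <;> rcases hw with rfl | rfl | rfl
    · rfl
    · rw [gx, ga] at e
      exact absurd e hyc
    · rw [gx, gb] at e
      exact absurd e hyd
    · rw [gx, ga] at e
      exact absurd e.symm hyc
    · rfl
    · rw [ga, gb] at e
      exact absurd e hcd.ne
    · rw [gx, gb] at e
      exact absurd e.symm hyd
    · rw [ga, gb] at e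
      exact absurd e.symm hcd.ne
    · rfl
  · rintro z hz w hw
    simp only [Set.mem_insert_iff, Set.mem_singleton_iff] at hz hw
    rcases hz with rfl | rfl | rfl <;> rcases hw with rfl | rfl | rfl
    · simp
    · rw [gx, ga]
      exact iff_of_false hnxa h1
    · rw [gx, gb]
      exact iff_of_false hnxb h2
    · rw [gx, ga]
      exact iff_of_false (fun e => hnxa e.symm) (fun e => h1 e.symm)
    · simp
    · rw [ga, gb]
      exact iff_of_true hab hcd
    · rw [gx, gb]
      exact iff_of_false (fun e => hnxb e.symm) (fun e => h2 e.symm)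
    · rw [ga, gb]
      exact iff_of_true hab.symm hcd.symm
    · simp

/-- Add the edge `a b` to a graph. -/
def a3add {α : Type} (H : SimpleGraph α) (a b : α) (hab : a ≠ b) : SimpleGraph α where
  Adj x y := H.Adj x y ∨ (x = a ∧ y = b) ∨ (x = b ∧ y = a)
  symm := ⟨by
    rintro x y (h | ⟨h1, h2⟩ | ⟨h1, h2⟩)
    · exact Or.inl h.symm
    · exact Or.inr (Or.inr ⟨h2, h1⟩)
    · exact Or.inr (Or.inl ⟨h2, h1⟩)⟩
  loopless := ⟨by
    rintro x (h | ⟨h1, h2⟩ | ⟨h1, h2⟩)
    · exact H.irrefl h
    · exact hab (h1.symm.trans h2)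
    · exact hab (h2.symm.trans h1)⟩

/-- The amalgamation step: the class contains `H` on `T` if the edge `a b` would create a
complement of `P_3`. -/
theorem a3_ap {P : ∀ α : Type, SimpleGraph α → Set α → Prop} (h : SAC P) (h3 : ¬ InCP3 P)
    {α : Type} [Finite α] (H : SimpleGraph α) (T : Set α) (a b l : α) (ha : a ∈ T) (hb : b ∈ T)
    (hl : l ∈ T) (hab : a ≠ b) (hla : l ≠ a) (hlb : l ≠ b) (hnab : ¬ H.Adj a b)
    (hnla : ¬ H.Adj l a) (hnlb : ¬ H.Adj l b) (h1 : P α (a3add H a b hab) (T \ {a}))
    (h2 : P α (a3add H a b hab) (T \ {b})) : P α H T := by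
  have := h.ap α (a3add H a b hab) H T a b ha hb hab ?_ (Or.inr (Or.inl ⟨rfl, rfl⟩)) hnab h1 h2
  · refine this.resolve_left (a3_no h h3 (y := l) (c := a) (d := b) hl ha hb
      (Or.inr (Or.inl ⟨rfl, rfl⟩)) hla hlb ?_ ?_)
    · rintro (e | ⟨e, -⟩ | ⟨e, -⟩)
      · exact hnla e
      · exact hla e
      · exact hlb e
    · rintro (e | ⟨e, -⟩ | ⟨e, -⟩)
      · exact hnlb e
      · exact hla e
      · exact hlb e
  · intro x y hxy hyx
    constructor
    · rintro (e | e | e)
      · exact e
      · exact absurd e hxy
      · exact absurd e hyx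
    · exact Or.inl

/-- The path `0 1 2`. -/
def a3path : SimpleGraph (Fin 3) where
  Adj x y := (x = 1 ∧ y ≠ 1) ∨ (y = 1 ∧ x ≠ 1)
  symm := ⟨by
    rintro x y (h | h)
    · exact Or.inr h
    · exact Or.inl h⟩
  loopless := ⟨by
    rintro x (h | h)
    · exact h.2 h.1
    · exact h.2 h.1⟩

/-- The path without the edge `1 2`. -/
def a3edge : SimpleGraph (Fin 3) where
  Adj x y := (x = 0 ∧ y = 1) ∨ (x = 1 ∧ y = 0)
  symm := ⟨by
    rintro x y (⟨h1, h2⟩ | ⟨h1, h2⟩)
    · exact Or.inr ⟨h2, h1⟩
    · exact Or.inl ⟨h2, h1⟩⟩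
  loopless := ⟨by
    rintro x (⟨h1, h2⟩ | ⟨h1, h2⟩)
    · exact absurd (h1.symm.trans h2) (by decide)
    · exact absurd (h1.symm.trans h2) (by decide)⟩

theorem a3_two {γ : Type} [Finite γ] {T : Set γ} {x y : γ} (h : T ⊆ {x, y}) : T.ncard ≤ 2 :=
  (Set.ncard_le_ncard h (Set.toFinite _)).trans (Set.ncard_insert_le x {y} |>.trans (by simp))

theorem a3_path_mem {P : ∀ α : Type, SimpleGraph α → Set α → Prop} (h : SAC P)
    (h2 : InCl P 2) (h2' : InInd P 2) (h3 : ¬ InCP3 P) : P (Fin 3) a3path Set.univ := by
  have := h.ap (Fin 3) a3path a3edge Set.univ 1 2 (Set.mem_univ _) (Set.mem_univ _) (by decide)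
    ?_ (Or.inl ⟨rfl, by decide⟩) ?_ ?_ ?_
  · refine this.resolve_right (a3_no h h3 (y := 2) (c := 0) (d := 1) (Set.mem_univ _)
      (Set.mem_univ _) (Set.mem_univ _) (Or.inl ⟨rfl, rfl⟩) (by decide) (by decide) ?_ ?_)
    · rintro (⟨e, -⟩ | ⟨e, -⟩)
      · exact absurd e (by decide)
      · exact absurd e (by decide)
    · rintro (⟨e, -⟩ | ⟨e, -⟩)
      · exact absurd e (by decide)
      · exact absurd e (by decide)
  · intro x y h1 h2
    fin_cases x <;> fin_cases y <;> simp_all [a3path, a3edge]
  · simp [a3edge]
  · refine h2' _ _ _ (Set.toFinite _) (a3_two (x := 0) (y := 2) ?_) ?_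
    · intro x hx
      fin_cases x <;> simp_all
    · intro x hx y hy
      fin_cases x <;> fin_cases y <;> simp_all [a3path]
  · refine h2 _ _ _ (Set.toFinite _) (a3_two (x := 0) (y := 1) ?_) ?_
    · intro x hx
      fin_cases x <;> simp_all
    · intro x hx y hy hxy
      fin_cases x <;> fin_cases y <;> simp_all [a3path]

/-- Three independent points. -/
theorem a3_ind {P : ∀ α : Type, SimpleGraph α → Set α → Prop} (h : SAC P)
    (h2' : InInd P 2) (h3 : ¬ InCP3 P) : P (Fin 3) ⊥ Set.univ := by
  refine a3_ap h h3 ⊥ Set.univ 0 1 2 (Set.mem_univ _) (Set.mem_univ _) (Set.mem_univ _)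
    (by decide) (by decide) (by decide) (by simp) (by simp) (by simp) ?_ ?_
  · refine h2' _ _ _ (Set.toFinite _) (a3_two (x := 1) (y := 2) ?_) ?_
    · intro x hx
      fin_cases x <;> simp_all
    · intro x hx y hy
      fin_cases x <;> fin_cases y <;> simp_all [a3add]
  · refine h2' _ _ _ (Set.toFinite _) (a3_two (x := 0) (y := 2) ?_) ?_
    · intro x hx
      fin_cases x <;> simp_all
    · intro x hx y hy
      fin_cases x <;> fin_cases y <;> simp_all [a3add]

/-- Stars. -/
theorem a3_star {P : ∀ α : Type, SimpleGraph α → Set α → Prop} (h : SAC P)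
    (h2 : InCl P 2) (h2' : InInd P 2) (h3 : ¬ InCP3 P) {α : Type} [Finite α] : ∀ (n : ℕ)
      (H : SimpleGraph α) (T : Set α) (c : α), T.ncard ≤ n → c ∈ T →
      (∀ x ∈ T, x ≠ c → H.Adj c x) → (∀ x ∈ T, x ≠ c → ∀ y ∈ T, y ≠ c → ¬ H.Adj x y) →
      P α H T := by
  classical
  intro n
  induction n with
  | zero =>
    intro H T c hT hc _ _
    have h0 : T.ncard = 0 := Nat.le_zero.1 hT
    rw [Set.ncard_eq_zero (Set.toFinite T)] at h0
    rw [h0] at hc
    exact absurd hc (Set.notMem_empty c)
  | succ n ih =>
    intro H T c hT hc h4 h5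
    by_cases hab : ∃ a b, a ∈ T ∧ b ∈ T ∧ a ≠ c ∧ b ≠ c ∧ a ≠ b
    · obtain ⟨a, b, ha, hb, hac, hbc, hab⟩ := hab
      by_cases hl : ∃ l, l ∈ T ∧ l ≠ c ∧ l ≠ a ∧ l ≠ b
      · obtain ⟨l, hl, hlc, hla, hlb⟩ := hl
        have hcard : ∀ z ∈ T, (T \ {z}).ncard ≤ n := by
          intro z hz
          have := Set.ncard_sdiff_singleton_add_one hz (Set.toFinite T)
          omega
        refine a3_ap h h3 H T a b l ha hb hl hab hla hlb (h5 a ha hac b hb hbc)
          (h5 l hl hlc a ha hac) (h5 l hl hlc b hb hbc) ?_ ?_
        · refine ih _ _ c (hcard a ha) ⟨hc, fun e => hac (Set.mem_singleton_iff.1 e).symm⟩ ?_ ?_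
          · intro x hx hxc
            exact Or.inl (h4 x hx.1 hxc)
          · rintro x ⟨hx, hxa⟩ hxc y ⟨hy, hya⟩ hyc (e | ⟨e, -⟩ | ⟨-, e⟩)
            · exact h5 x hx hxc y hy hyc e
            · exact hxa (Set.mem_singleton_iff.2 e)
            · exact hya (Set.mem_singleton_iff.2 e)
        · refine ih _ _ c (hcard b hb) ⟨hc, fun e => hbc (Set.mem_singleton_iff.1 e).symm⟩ ?_ ?_
          · intro x hx hxc
            exact Or.inl (h4 x hx.1 hxc)
          · rintro x ⟨hx, hxa⟩ hxc y ⟨hy, hya⟩ hyc (e | ⟨-, e⟩ | ⟨e, -⟩)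
            · exact h5 x hx hxc y hy hyc e
            · exact hya (Set.mem_singleton_iff.2 e)
            · exact hxa (Set.mem_singleton_iff.2 e)
      · push Not at hl
        have hall : ∀ x ∈ T, x = c ∨ x = a ∨ x = b := by
          intro x hx
          by_cases h6 : x = c
          · exact Or.inl h6
          · by_cases h7 : x = a
            · exact Or.inr (Or.inl h7)
            · exact Or.inr (Or.inr (hl x hx h6 h7))
        have gc : (if c = c then (1 : Fin 3) else if c = a then 0 else 2) = 1 := if_pos rfl
        have ga : (if a = c then (1 : Fin 3) else if a = a then 0 else 2) = 0 := by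
          rw [if_neg hac, if_pos rfl]
        have gb : (if b = c then (1 : Fin 3) else if b = a then 0 else 2) = 2 := by
          rw [if_neg hbc, if_neg hab.symm]
        have hca := h4 a ha hac
        have hcb := h4 b hb hbc
        have hnab := h5 a ha hac b hb hbc
        refine h.comap (Fin 3) α a3path Set.univ H T
          (fun z => if z = c then 1 else if z = a then 0 else 2) (a3_path_mem h h2 h2' h3)
          (fun _ _ => Set.mem_univ _) ?_ ?_
        · intro z hz w hw e
          simp only at e
          rcases hall z hz with rfl | rfl | rfl <;> rcases hall w hw with rfl | rfl | rfl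
          · rfl
          · rw [gc, ga] at e
            exact absurd e (by decide)
          · rw [gc, gb] at e
            exact absurd e (by decide)
          · rw [gc, ga] at e
            exact absurd e (by decide)
          · rfl
          · rw [ga, gb] at e
            exact absurd e (by decide)
          · rw [gc, gb] at e
            exact absurd e (by decide)
          · rw [ga, gb] at e
            exact absurd e (by decide)
          · rfl
        · intro z hz w hw
          rcases hall z hz with rfl | rfl | rfl <;> rcases hall w hw with rfl | rfl | rfl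
          · simp
          · rw [gc, ga]
            exact iff_of_true hca (Or.inl ⟨rfl, by decide⟩)
          · rw [gc, gb]
            exact iff_of_true hcb (Or.inl ⟨rfl, by decide⟩)
          · rw [gc, ga]
            exact iff_of_true hca.symm (Or.inr ⟨rfl, by decide⟩)
          · simp
          · rw [ga, gb]
            exact iff_of_false hnab (by simp [a3path])
          · rw [gc, gb]
            exact iff_of_true hcb.symm (Or.inr ⟨rfl, by decide⟩)
          · rw [ga, gb]
            exact iff_of_false (fun e => hnab e.symm) (by simp [a3path])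
          · simp
    · push Not at hab
      by_cases ha : ∃ a, a ∈ T ∧ a ≠ c
      · obtain ⟨a, ha, hac⟩ := ha
        have hall : ∀ x ∈ T, x = c ∨ x = a := by
          intro x hx
          by_cases h6 : x = c
          · exact Or.inl h6
          · exact Or.inr (hab x a hx ha h6 hac)
        refine h2 _ _ _ (Set.toFinite _) (a3_two (x := c) (y := a) hall) ?_
        intro x hx y hy hxy
        rcases hall x hx with rfl | rfl <;> rcases hall y hy with rfl | rfl
        · exact absurd rfl hxy
        · exact h4 _ ha hac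
        · exact (h4 _ ha hac).symm
        · exact absurd rfl hxy
      · push Not at ha
        refine h2 _ _ _ (Set.toFinite _) (a3_two (x := c) (y := c) (fun x hx => Or.inl (ha x hx))) ?_
        intro x hx y hy hxy
        exact absurd ((ha x hx).trans (ha y hy).symm) hxy

/-- module U-A3. -/
theorem sac_star {P : ∀ α : Type, SimpleGraph α → Set α → Prop} (h : SAC P)
    (h2 : InCl P 2) (h2' : InInd P 2) (h3 : ¬ InCP3 P) :
    InInd P 3 ∧ ∀ (α : Type) [Finite α] (H : SimpleGraph α) (T : Set α) (c : α), c ∈ T →
      (∀ x ∈ T, x ≠ c → H.Adj c x) → (∀ x ∈ T, x ≠ c → ∀ y ∈ T, y ≠ c → ¬ H.Adj x y) →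
      P α H T := by
  classical
  refine ⟨?_, fun α _ H T c => a3_star h h2 h2' h3 T.ncard H T c le_rfl⟩
  intro α A T hfin hT hA
  rcases Nat.lt_or_ge T.ncard 3 with h4 | h4
  · exact h2' α A T hfin (by omega) hA
  · have h5 : T.ncard = 3 := le_antisymm hT h4
    obtain ⟨x, y, z, hxy, hxz, hyz, rfl⟩ := Set.ncard_eq_three.1 h5
    have hall : ∀ w ∈ ({x, y, z} : Set α), w = x ∨ w = y ∨ w = z := by
      intro w hw
      simpa using hw
    have gx : (if x = x then (0 : Fin 3) else if x = y then 1 else 2) = 0 := if_pos rfl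
    have gy : (if y = x then (0 : Fin 3) else if y = y then 1 else 2) = 1 := by
      rw [if_neg hxy.symm, if_pos rfl]
    have gz : (if z = x then (0 : Fin 3) else if z = y then 1 else 2) = 2 := by
      rw [if_neg hxz.symm, if_neg hyz.symm]
    refine h.comap (Fin 3) α ⊥ Set.univ A {x, y, z}
      (fun w => if w = x then 0 else if w = y then 1 else 2) (a3_ind h h2' h3)
      (fun _ _ => Set.mem_univ _) ?_ ?_
    · intro v hv w hw e
      simp only at e
      rcases hall v hv with rfl | rfl | rfl <;> rcases hall w hw with rfl | rfl | rfl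
      · rfl
      · rw [gx, gy] at e
        exact absurd e (by decide)
      · rw [gx, gz] at e
        exact absurd e (by decide)
      · rw [gx, gy] at e
        exact absurd e (by decide)
      · rfl
      · rw [gy, gz] at e
        exact absurd e (by decide)
      · rw [gx, gz] at e
        exact absurd e (by decide)
      · rw [gy, gz] at e
        exact absurd e (by decide)
      · rfl
    · intro v hv w hw
      exact iff_of_false (hA v hv w hw) (by simp)

end Un
end SetHom
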