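import Pool.Agent.Helper59.U.P1
import Pool.Agent.Helper53.U.I1
import Pool.Agent.Helper38.U.I2

/-!
# MP_506470_co : module U-I3, Lemma KI from its two steps, two independent points and paths
-/

namespace SetHom
namespace Un

variable {V : Type} {G : SimpleGraph V}

/-- Reduction of `PS` to finite types. -/
theorem i3_sub {S : Set ℕ} {α : Type} {A : SimpleGraph α} {T : Set α} (hT : T.Nonempty)
    (h : PS G S (A.comap (Subtype.val : T → α)) Set.univ) : PS G S A T := by
  classical
  obtain ⟨t0, ht0⟩ := hT
  have hg : ∀ x (hx : x ∈ T), (if h : x ∈ T then (⟨x, h⟩ : T) else ⟨t0, ht0⟩) = ⟨x, hx⟩ :=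
    fun x hx => dif_pos hx
  refine h.comap (fun x => if h : x ∈ T then (⟨x, h⟩ : T) else ⟨t0, ht0⟩)
    (fun _ _ => Set.mem_univ _) ?_ ?_
  · intro x hx y hy e
    simp only [hg x hx, hg y hy, Subtype.mk.injEq] at e
    exact e
  · intro x hx y hy
    simp only [hg x hx, hg y hy, SimpleGraph.comap_adj]

/-- Lemma KI, with bounds for the two counts. -/
theorem i3_ki (hW : WG G) (hC : CliqueIn G {0}) : ∀ (n m : ℕ) (α : Type) [Finite α]
    (H : SimpleGraph α) (U C : Set α) (a b : α), KI H U C a b → s01 H U C a b ≤ n →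
      s11 H U C a b ≤ m → InW G 0 H U := by
  intro n
  induction n using Nat.strong_induction_on with
  | _ n ihn =>
    intro m
    induction m using Nat.strong_induction_on with
    | _ m ihm =>
      intro α _ H U C a b h hn hm
      by_cases h11 : ∃ d, d ∈ U ∧ d ∉ C ∧ d ≠ a ∧ d ≠ b ∧ H.Adj a d ∧ H.Adj b d
      · obtain ⟨d, hd, hdC, hda, hdb, had, hbd⟩ := h11
        refine ki_S hW hC h hd hdC hda hdb had hbd ?_
        intro α' _ H' U' C' a' b' h' h1 h2
        exact ihm _ (lt_of_lt_of_le h2 hm) α' H' U' C' a' b' h' (h1.trans hn) le_rfl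
      · by_cases h01 : ∃ z, z ∈ U ∧ z ∉ C ∧ z ≠ a ∧ z ≠ b ∧ ¬ H.Adj a z ∧ H.Adj b z
        · obtain ⟨z, hz, hzC, hza, hzb, haz, hbz⟩ := h01
          refine ki_T hW hC h hz hzC hza hzb haz hbz ?_
          intro α' _ H' U' C' a' b' h' h1
          exact ihn _ (lt_of_lt_of_le h1 hn) _ α' H' U' C' a' b' h' le_rfl le_rfl
        · have hbJ : ∀ j ∈ U, j ∉ C → j ≠ a → j ≠ b → ¬ H.Adj b j := by
            intro j hj h1 h2 h3 h4
            by_cases h5 : H.Adj a j
            · exact h11 ⟨j, hj, h1, h2, h3, h5, h4⟩
            · exact h01 ⟨j, hj, h1, h2, h3, h5, h4⟩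
          have hps : PS G {0} H (insert a C) := by
            refine hC α H _ ?_
            rintro x (rfl | hx) y (rfl | hy) hxy
            · exact absurd rfl hxy
            · exact (h.ca y hy).symm
            · exact h.ca x hx
            · exact h.cc x hx y hy hxy
          refine hps.inW ?_ rfl
          intro x hx hxT y hy hyT
          have hxa : x ≠ a := fun e => hxT (Or.inl e)
          have hxC : x ∉ C := fun e => hxT (Or.inr e)
          have hya : y ≠ a := fun e => hyT (Or.inl e)
          have hyC : y ∉ C := fun e => hyT (Or.inr e)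
          by_cases hxb : x = b
          · subst hxb
            by_cases hyb : y = x
            · rw [hyb]
              exact fun e => H.irrefl e
            · exact hbJ y hy hyC hya hyb
          · by_cases hyb : y = b
            · subst hyb
              exact fun e => hbJ x hx hxC hxa hxb e.symm
            · exact h.ind x hx hxC hxa hxb y hy hyC hya hyb

/-- Paths: the first family of statuses. -/
theorem i3_base (hW : WG G) (hC : CliqueIn G {0}) :
    P3C G 0 (fun x y z => (¬ x → ¬ y ∧ ¬ z)) := by
  intro α _ H U x a b h hxa hxb hab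
  refine i3_ki hW hC _ _ α H U {x} a b ⟨?_, h.ha, h.hb, ?_, ?_, h.ab, hab, ?_, ?_, ?_, ?_, ?_⟩
    le_rfl le_rfl
  · intro y hy
    rw [Set.mem_singleton_iff.1 hy]
    exact h.hx
  · exact fun e => h.xa (Set.mem_singleton_iff.1 e).symm
  · exact fun e => h.xb (Set.mem_singleton_iff.1 e).symm
  · intro y hy z hz hyz
    exact absurd ((Set.mem_singleton_iff.1 hy).trans (Set.mem_singleton_iff.1 hz).symm) hyz
  · intro c hc
    rw [Set.mem_singleton_iff.1 hc]
    exact hxa
  · intro c hc
    rw [Set.mem_singleton_iff.1 hc]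
    exact hxb
  · intro i hi hiC hia hib j hj hjC hja hjb
    exact h.ind i hi (fun e => hiC (Set.mem_singleton_iff.2 e)) hia hib j hj
      (fun e => hjC (Set.mem_singleton_iff.2 e)) hja hjb
  · intro c hc j hj hjC hja hjb hadj
    rw [Set.mem_singleton_iff.1 hc]
    by_contra hcon
    obtain ⟨h1, h2⟩ := h.st j hj (fun e => hjC (Set.mem_singleton_iff.2 e)) hja hjb hcon
    exact hadj.elim h1 h2

/-- Paths: all statuses. -/
theorem i3_p3c (hW : WG G) (hC : CliqueIn G {0}) : P3C G 0 (fun _ _ _ => True) := by
  have h1 : P3C G 0 (fun x y _ => (¬ x → ¬ y)) := by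
    refine p3_step hW hC _ _ (fun x _ z => x ∧ z) ?_ ?_ ?_ ?_ ?_ (i3_base hW hC)
    · intro x y z h hx
      exact ⟨h hx, fun e => hx e.1⟩
    · intro x y z _ hx
      exact absurd trivial hx
    · exact fun hx => absurd trivial hx
    · exact fun hx => absurd trivial hx
    · exact fun _ => ⟨id, id⟩
  have h2 : P3C G 0 (fun x _ z => (¬ x → ¬ z)) := h1.swap
  refine p3_step hW hC _ _ (fun x _ z => x ∧ z) ?_ ?_ ?_ ?_ ?_ h2
  · intro x y z _ hx e
    exact hx e.1
  · intro x y z _ hx
    exact absurd trivial hx
  · exact fun hx => absurd trivial hx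
  · exact fun hx => absurd trivial hx
  · exact fun _ => id

/-- module U-I3 (KI from the two steps, and the consequences for two independent points and for
paths). -/
theorem ki_all (hW : WG G) (hC : CliqueIn G {0}) :
    (∀ (α : Type) [Finite α] (H : SimpleGraph α) (U C : Set α) (a b : α), KI H U C a b →
      InW G 0 H U) ∧ InInd (fun _ A T => PS G {0} A T) 2 ∧ InP3 (fun _ A T => PS G {0} A T) := by
  classical
  have hki : ∀ (α : Type) [Finite α] (H : SimpleGraph α) (U C : Set α) (a b : α),
      KI H U C a b → InW G 0 H U := fun α _ H U C a b h =>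
    i3_ki hW hC _ _ α H U C a b h le_rfl le_rfl
  refine ⟨hki, ?_, ?_⟩
  · intro α A T hfin hT hA
    show PS G {0} A T
    rcases T.eq_empty_or_nonempty with rfl | hne
    · have h0 : PS G {0} (⊥ : SimpleGraph Unit) (∅ : Set Unit) :=
        hC Unit ⊥ ∅ (fun x hx => absurd hx (Set.notMem_empty x))
      exact h0.comap (fun _ => ()) (fun x hx => absurd hx (Set.notMem_empty x))
        (fun x hx => absurd hx (Set.notMem_empty x)) (fun x hx => absurd hx (Set.notMem_empty x))
    · have : Finite T := hfin
      refine i3_sub hne ?_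
      by_cases hsub : ∀ x y : T, x = y
      · refine hC T _ _ ?_
        intro x _ y _ hxy
        exact absurd (hsub x y) hxy
      · push Not at hsub
        obtain ⟨a, b, hab⟩ := hsub
        have hall : ∀ x : T, x = a ∨ x = b := by
          intro x
          by_contra hcon
          push Not at hcon
          have h3 : ({(a : α), (b : α), (x : α)} : Finset α).card = 3 := by
            rw [Finset.card_eq_three]
            exact ⟨a, b, x, fun e => hab (Subtype.ext e), fun e => hcon.1 (Subtype.ext e.symm),
              fun e => hcon.2 (Subtype.ext e.symm), rfl⟩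
          have h4 : (({(a : α), (b : α), (x : α)} : Finset α) : Set α) ⊆ T := by
            intro y hy
            simp only [Finset.coe_insert, Finset.coe_singleton, Set.mem_insert_iff,
              Set.mem_singleton_iff] at hy
            rcases hy with rfl | rfl | rfl
            · exact a.2
            · exact b.2
            · exact x.2
          have h5 := Set.ncard_le_ncard h4 hfin
          rw [Set.ncard_coe_finset, h3] at h5
          omega
        intro β _ R r hr
        have hr0 : r = 0 := hr
        subst hr0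
        have hadj : ∀ x y : T, ¬ (A.comap (Subtype.val : T → α)).Adj x y := fun x y =>
          hA x x.2 y y.2
        have hinr : ∀ x : T ⊕ β, x ≠ Sum.inl a → x ≠ Sum.inl b → ∃ j, x = Sum.inr j := by
          rintro (x | j) hxa hxb
          · rcases hall x with rfl | rfl
            · exact absurd rfl hxa
            · exact absurd rfl hxb
          · exact ⟨j, rfl⟩
        refine hki (T ⊕ β) (AJ (A.comap (Subtype.val : T → α)) R) (UJ β Set.univ) ∅ (Sum.inl a)
          (Sum.inl b) ⟨Set.empty_subset _, by simp, by simp, Set.notMem_empty _,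
            Set.notMem_empty _, fun e => hab (Sum.inl_injective e), ?_, ?_, ?_, ?_, ?_, ?_⟩
        · rw [AJ_ll]
          exact hadj a b
        · exact fun x hx => absurd hx (Set.notMem_empty x)
        · exact fun x hx => absurd hx (Set.notMem_empty x)
        · exact fun x hx => absurd hx (Set.notMem_empty x)
        · intro x _ _ hxa hxb y _ _ hya hyb
          obtain ⟨i, rfl⟩ := hinr x hxa hxb
          obtain ⟨j, rfl⟩ := hinr y hya hyb
          exact AJ_rr i j
        · exact fun x hx => absurd hx (Set.notMem_empty x)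
  · intro α A x a b hxa hxb hab hnab
    show PS G {0} A {x, a, b}
    have hxT : x ∈ ({x, a, b} : Set α) := by simp
    have haT : a ∈ ({x, a, b} : Set α) := by simp
    have hbT : b ∈ ({x, a, b} : Set α) := by simp
    have : Finite ({x, a, b} : Set α) := Set.toFinite _
    refine i3_sub ⟨x, hxT⟩ ?_
    intro β _ R r hr
    have hr0 : r = 0 := hr
    subst hr0
    have hinr : ∀ y : ({x, a, b} : Set α) ⊕ β, y ≠ Sum.inl ⟨x, hxT⟩ → y ≠ Sum.inl ⟨a, haT⟩ →
        y ≠ Sum.inl ⟨b, hbT⟩ → ∃ j, y = Sum.inr j := by
      rintro (⟨y, hy⟩ | j) h1 h2 h3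
      · rcases hy with rfl | rfl | hy
        · exact absurd rfl h1
        · exact absurd rfl h2
        · rw [Set.mem_singleton_iff] at hy
          subst hy
          exact absurd rfl h3
      · exact ⟨j, rfl⟩
    refine i3_p3c hW hC _ _ _ (Sum.inl ⟨x, hxT⟩) (Sum.inl ⟨a, haT⟩) (Sum.inl ⟨b, hbT⟩)
      ⟨by simp, by simp, by simp, ?_, ?_, ?_, ?_, fun _ _ _ _ _ => trivial⟩ ?_ ?_ ?_
    · intro e
      exact hxa.ne (congrArg Subtype.val (Sum.inl_injective e))
    · intro e
      exact hxb.ne (congrArg Subtype.val (Sum.inl_injective e))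
    · intro e
      exact hab (congrArg Subtype.val (Sum.inl_injective e))
    · intro i _ h1 h2 h3 j _ h4 h5 h6
      obtain ⟨i, rfl⟩ := hinr i h1 h2 h3
      obtain ⟨j, rfl⟩ := hinr j h4 h5 h6
      exact AJ_rr i j
    · rw [AJ_ll]
      exact hxa
    · rw [AJ_ll]
      exact hxb
    · rw [AJ_ll]
      exact hnab

end Un
end SetHom
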